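import Pool.Agent.H13Z.FreeP.Exists

open Pool.Agent.H13Z.FreeP

universe u

/-- For `0 < p < 1` the Lipschitz free `p`-space over any pointed metric space has the Schur
`p`-property.  The hypothesis `IsFreeP` is satisfiable by
`Pool.Agent.H13Z.FreeP.exists_isFreeP`. -/
theorem Pool.Agent.Results.MP_80c44a_an.ASchurAllMetric.result :
    ∀ (p : ℝ), 0 < p → p < 1 → ∀ (M : Type u) [MetricSpace M] (o : M)
      (F : Type u) [AddCommGroup F] [Module ℝ F] (N : F → ℝ) (δ : M → F),
      IsFreeP ℝ p o N δ → SchurP p N :=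
  fun _ hp hp1 _ _ _ _ _ _ _ _ h => h.schur hp hp1
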